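import Mathlib
import Pool.Agent.H836.HC.Final

set_option autoImplicit false

/-!
# Value groups of equal order, with one exception (MP_d26ff6_al)

Let `S = (G, -1, q)` be a finite quaternionic structure, `V(a) = {x : q(a,x) = 0}` the value group of
`a ∈ G`, `R = {a : V(a) = G}` the radical and `c` an arbitrary element of `G`. If the value groups
`V(a)` of all `a` outside `R ∪ cR` have the same order, then `S` is of elementary type. More
precisely, then each of these value groups has at most `4 |R|` elements or index at most two in `G`.
Nothing is assumed about the order of `V(c)`, which may be smaller or larger than the others. The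
starting library has the case without exception (`EqualValueGroups`). For `c = -1` the theorem
applies, for example, if the automorphisms of `S` (which fix `-1`) act transitively on the elements
outside `R ∪ -R`.

Proof.  Modulo the radical, let `|V(a)| = v` for all `a ≠ 1, c`, let `|V(c)| = w ≠ v`, `w < |G|`,
`|G| = N v`, `v ≥ 8` and `N ≥ 4`. Slots `a`, `b` have `x = |V(ab)| / |V(a) ∩ V(b)|` common
quaternions; put `r = |V(a) ∩ V(b)|`.
1. `N ≥ 2 v`. Otherwise the sum of the `r` over `b`, for one `a`, shows that many `b` have the same
   quaternions as `a`; for `N = v` the groups `V(b)` of these `b` would overlap too much, and for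
   `2 N ≤ v` all `b ≠ 1, c` would have the same quaternions, which gives `N = 2`.
2. `w < v`. Counting gives an `a ≠ 1, c` with `c ∉ V(a)` and `V(a) ∩ V(c) = 1`. A quaternion `t`
   with slot `a` has at most `1 + v (v - 1)` slots, and at most `1 + w (v - 1)` if `c` is one of
   them. The sum of `x (r - 1) (r - 2) ≥ 0` over the `b ≠ 1, c, a, ca` gives a contradiction.
3. `w > v`. A quaternion `t ≠ 0` with slot `c` has at most `1 + w` slots if all slots `a ≠ c`
   satisfy `q(a,c) = t`, and at most `1 + v (v - 1)` slots otherwise. For `a = c` one uses
   `r (x - 2) ^ 2 ≥ 0` if `w ≥ v (v - 1)`, `x (r - 1) (r - 2) ≥ 0` if `w ≤ N`, and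
   `x (r - l) (r - 2 l) ≥ 0` if `w = l N`, `l ≥ 2`.
So `v ≤ 4` or `N ≤ 2`. In these cases `S` is of elementary type by theorems of the starting library
(`OneException`: all value groups but one have at most four elements; and the theorem on structures
whose core is everything). Finally elementary type passes from `S` modulo its radical to `S`, by the
criterion of the starting library on value groups.
-/

namespace Pool.Agent.Results.MP_d26ff6_al.EqualWithOneException

open Pool.Agent.H315R3.ETC

/-- **Finite quaternionic structures in which all value groups but one, modulo the radical, have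
equal orders are of elementary type.** -/
theorem result (S : QData) (hS : IsQuat S) (hfin : Finite S.G) (c : S.G)
    -- `V(a)` and `V(b)` have the same order if `a`, `c a`, `b`, `c b` are not in the radical
    (heq : ∀ a b : S.G, (∃ x, S.q a x ≠ S.zero) → (∃ x, S.q (c * a) x ≠ S.zero) →
      (∃ x, S.q b x ≠ S.zero) → (∃ x, S.q (c * b) x ≠ S.zero) →
      {x : S.G | S.q a x = S.zero}.ncard = {x : S.G | S.q b x = S.zero}.ncard) :
    Elem S ∧
    ∀ a : S.G, (∃ x, S.q a x ≠ S.zero) → (∃ x, S.q (c * a) x ≠ S.zero) →
      {x : S.G | S.q a x = S.zero}.ncard ≤ 4 * {r : S.G | ∀ x, S.q r x = S.zero}.ncard ∨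
      Nat.card S.G ≤ 2 * {x : S.G | S.q a x = S.zero}.ncard :=
  Pool.Agent.H836.HC.main' hS hfin c heq

end Pool.Agent.Results.MP_d26ff6_al.EqualWithOneException
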