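import Pool.Agent.H923.ET.Add

/-! # MP_d26ff6_al: value groups of order at most four or index at most eight

Let `S = (G, -1, q)` be a finite quaternionic structure and `V(a) = {b : q(a,b) = 0}`.

(1) If each `V(a)` has at most four elements or index at most four in `G` and `|G| ≥ 2^8`, then `S`
is of elementary type (for `|G| ≤ 2^7` this is known).

(2) If each `V(a)` has at most four elements or index at most eight, some `V(a)` has index greater
than eight and `|G| ≥ 2^20`, then `S` is of elementary type.

(3) If the quaternions lie in a group of exponent two in which `q` is additive (for instance if `S`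
is the structure of a field), the last condition of (2) is not needed, and index at most sixteen is
enough if some `V(a)` has index greater than sixteen and `|G| ≥ 2^25`.

Outline. Let `C` be the set of all `a` such that `V(a)` is large, and `C ≠ G`. It is a subgroup. If
`|C| ≤ 2` only one value group is large and the result is known. Otherwise two large value groups
meet in many elements, which are in `±C`, and counting shows that `-1 ∈ C`, that `V(v) ⊆ C` for
almost all `v ∈ C`, and that `C` has small index.

Let `e` be outside of `C`, `v ∈ C` generic and `t = q(v,e)`. As `t` has many slots, each slot `z`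
outside of `C` has `t = q(z,u)` with `u ∈ C`, and then `u v` is orthogonal to an element outside of
`C`. With `z = va`, `a ∈ V(e)`, this gives `V(e) ⊆ C ∪ eC`, so `V(e) = {1,-e} (V(e) ∩ C)`.

The elements of `C` which are orthogonal to some element of a coset `eC ≠ C` form a group `K(e)`:
this is linkage for `q(v c, w) = q(v c', w')`. If `K(e)` had more than two elements, then three
elements `x, y, xy` of `K(e)` would be related by linkage such that one of them is orthogonal to
itself, which contradicts `|V(-w)| ≤ 4` for a suitable `w`. Linkage of `q(gx,w)` and `q(gy,w')` with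
`g = -ww'` shows that `K(e) ⊆ {1,x}` with the same `x` for all cosets.

So `C` is a quaternionic structure with value groups of half the index (with at most one exception),
hence of elementary type by known results, and `S` satisfies the value group criterion because `C`
does: if `x ∉ H` then `V(xh) ⊆ V(x) H` for all `h ∈ H`, by linkage, and if `x ∈ H` an element which
works for `H ∩ C` in `C` works for `H`. -/

set_option autoImplicit false

namespace Pool.Agent.Results.MP_d26ff6_al.FourOrEight

open Pool.Agent.H315R3.ETC

universe v

/-- the value group `V(a) = {b : q(a,b) = 0}` -/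
def V (S : QData) (hS : IsQuat S) (a : S.G) : Subgroup S.G where
  carrier := {b | S.q a b = S.zero}
  one_mem' := (D hS a).one_mem
  mul_mem' := (D hS a).mul_mem
  inv_mem' := (D hS a).inv_mem

/-- every value group has at most four elements or index at most `M` in `G` -/
def FourOr (S : QData) (hS : IsQuat S) (M : ℕ) : Prop :=
  ∀ a : S.G, Nat.card (V S hS a) ≤ 4 ∨ (V S hS a).index ≤ M

/-- the quaternions lie in the group `B` of exponent two, and `q` is additive in `B` -/
def AdditiveIn (S : QData) (B : Type v) [AddCommGroup B] : Prop :=
  (∀ b : B, b + b = 0) ∧ ∃ β : S.G → S.G → B, (∀ a b c, β a (b * c) = β a b + β a c) ∧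
    ∀ a b c d, β a b = β c d ↔ S.q a b = S.q c d

theorem result (S : QData) (hS : IsQuat S) (hfin : Finite S.G) :
    -- order at most four or index at most four
    (2 ^ 8 ≤ Nat.card S.G → FourOr S hS 4 → Elem S) ∧
    -- order at most four or index at most eight, and some index is greater than eight
    (2 ^ 20 ≤ Nat.card S.G → FourOr S hS 8 → (∃ a : S.G, 8 < (V S hS a).index) → Elem S) ∧
    -- additive structures
    (∀ (B : Type v) [AddCommGroup B], AdditiveIn S B →
      (2 ^ 20 ≤ Nat.card S.G → FourOr S hS 8 → Elem S) ∧
      (2 ^ 25 ≤ Nat.card S.G → FourOr S hS 16 → (∃ a : S.G, 16 < (V S hS a).index) →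
        Elem S)) := by
  refine ⟨fun hG hd => Pool.Agent.H923.ET.elem_four hS hG hd, fun hG hd hex =>
    Pool.Agent.H923.ET.elem_eight hS hG hd hex, fun B _ hB => ?_⟩
  obtain ⟨h2, β, hmul, hiff⟩ := hB
  exact ⟨fun hG hd => Pool.Agent.H923.ET.add_eight hS h2 β hmul hiff hG hd, fun hG hd hex =>
    Pool.Agent.H923.ET.add_sixteen hS h2 β hmul hiff hG hd hex⟩

end Pool.Agent.Results.MP_d26ff6_al.FourOrEight
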