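import Mathlib
import Pool.Agent.H836.HM.Final16

set_option autoImplicit false

/-!
# Most value groups have the maximal order (MP_d26ff6_al)

Let `S = (G, -1, q)` be a finite quaternionic structure, `V(a) = {x : q(a,x) = 0}` the value group of
`a ∈ G` and `R = {a : V(a) = G}` the radical. Let `a₀ ∈ G` be such that `|V(a)| ≤ |V(a₀)|` for all
`a` outside `R`, and let `X` be the set of the exceptional `a`: those outside `R` with
`|V(a)| ≠ |V(a₀)|`. If `|X| ≤ |G| / 16`, then `S` is of elementary type, and moreover either
`|V(a₀)| ≤ 4 |R|`, or all the `V(a)` have index at most two in `G` (and then `X` is empty and `S`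
modulo its radical has at most two quaternions). So if some `a` outside `R` has `|V(a)| > 4 |R|` and
some `V(a)` has index more than two, then more than a 16th part of the elements of `G` have value
groups whose order is smaller than the maximal one outside `R`.

Proof.  Modulo the radical, let `|V(a)| = v` for all `a ≠ 1` outside a set `E` and `|V(c)| ≤ v / 2`
for `c ∈ E`, let `|G| = N v`, `v ≥ 8`, `N ≥ 2`, `|E| ≤ |G| / 16`, and suppose that `E` is not empty.
Slots `a`, `b` have `x = |V(ab)| / |V(a) ∩ V(b)|` common quaternions; put `r = |V(a) ∩ V(b)|`.
1. `4 N ≤ v`. For `c ∈ E` we have `|V(c) ∩ V(b)| ≥ v / N` for most `b`; but the mean over `b` is less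
   than `1 + v / (2 N)`.
2. `2 N = v`. The mean of `r` for one `a` outside `E` shows that about half of the `b` have exactly
   the quaternions of `a`. If all `b` outside `E` have the same quaternions, then `c ∈ E` has no
   other ones, since the `y` such that `q(c,y)` has the slot `a` form a subgroup; so `V(c)` would not
   be smaller. Otherwise `G` would almost be the union of two such subgroups.
3. `N = v`. For `c ∈ E` all quaternions of `a` have the slot `c`, for about half of the `a`. The sum
   of `x (r - 2) (r - 3) ≥ 0` over the `b ≠ 1, a` shows first that `|V(c)| = v / 2` for all `c ∈ E`,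
   and then bounds the number of the `b` with `r = 1`; here one uses that a quaternion `t ≠ 0` with a
   slot `c ∈ E` has at most `1 + |V(c)| (v - 1)` slots. But among four elements of `E` there are two,
   `c` and `d`, which share at least about a twelfth of the `a`; all these `a` have the same
   quaternions, the common ones of `c` and `d`, so that `r = 1` for any two of them.
4. `N = 2 m v`. The sum of `x (r - 1) (r - 2) ≥ 0` over the `b ≠ 1, a` bounds the number of the
   quaternions of `a` which have a slot in `E`. On the other hand, let `F` be a set of `3 m` elements
   of `E` (all of them if there are fewer). Inclusion and exclusion gives a lower bound for the mean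
   over `a` of the number of the quaternions of `a` with a slot in `F`, which is larger.
   The cases 3 and 4 need `|E| > v`. If `|E| ≤ v` and `N ≥ v`, one takes `a` with
   `V(a) ∩ V(c) = 1` for one `c ∈ E`, and uses the sum of `x (r - 1) (r - 2)` again.
So `v ≤ 4`, or all value groups but `V(1)` have the same order; then `v ≤ 4` or `N = 2` by the
library theorem `EqualValueGroups`. In these cases `S` is of elementary type by theorems of the
starting library. Finally elementary type passes from `S` modulo its radical to `S`, by the criterion
of the starting library on value groups.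
-/

namespace Pool.Agent.Results.MP_d26ff6_al.MostValueGroupsMaximal

open Pool.Agent.H315R3.ETC

/-- **Finite quaternionic structures in which the value groups of all but a 16th part of the elements
have the maximal order are of elementary type.** -/
theorem result (S : QData) (hS : IsQuat S) (hfin : Finite S.G) (a₀ : S.G)
    -- `V(a₀)` has the maximal order among the `V(a)`, `a` not in the radical
    (hmax : ∀ a : S.G, (∃ x, S.q a x ≠ S.zero) →
      {x : S.G | S.q a x = S.zero}.ncard ≤ {x : S.G | S.q a₀ x = S.zero}.ncard)
    -- `16 |X| ≤ |G|` for the set `X` of the exceptional elements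
    (hX : 16 * {a : S.G | (∃ x, S.q a x ≠ S.zero) ∧ {x : S.G | S.q a x = S.zero}.ncard ≠
      {x : S.G | S.q a₀ x = S.zero}.ncard}.ncard ≤ Nat.card S.G) :
    Elem S ∧
      ({x : S.G | S.q a₀ x = S.zero}.ncard ≤ 4 * {r : S.G | ∀ x, S.q r x = S.zero}.ncard ∨
      ∀ a : S.G, Nat.card S.G ≤ 2 * {x : S.G | S.q a x = S.zero}.ncard) :=
  Pool.Agent.H836.HM.main16 hS hfin a₀ hmax hX

end Pool.Agent.Results.MP_d26ff6_al.MostValueGroupsMaximal
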